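import Pool.Agent.NDR.StmtsR

/-! # Squad NDR (MP_b48657_ag), row DLT: a generic small number -/

set_option autoImplicit false

namespace Pool.Agent.NDR.H26

theorem dlt : DltStmt := by
  intro τ _ z x δ₀ hδ
  have hS : (Set.range fun p : (τ → ℤ) × ℤ =>
      (∑ v, ((p.1 v : ℤ) : ℝ) * x v - ((p.2 : ℤ) : ℝ)) / ((p.1 z : ℤ) : ℝ)).Countable :=
    Set.countable_range _
  obtain ⟨δ, hδS, h0, h1⟩ := (hS.dense_compl ℝ).exists_between hδ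
  refine ⟨δ, h0, h1, fun l hl n h => hδS ⟨(l, n), ?_⟩⟩
  have hl' : ((l z : ℤ) : ℝ) ≠ 0 := Int.cast_ne_zero.2 hl
  change (∑ v, ((l v : ℤ) : ℝ) * x v - ((n : ℤ) : ℝ)) / ((l z : ℤ) : ℝ) = δ
  rw [div_eq_iff hl', ← h]
  ring

end Pool.Agent.NDR.H26
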